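import Pool.Agent.PLG.Stmts

/-!
# Row TPL of squad PLG (MP_1fc801_co): pigeonhole over the universal finite set of multipliers
-/

set_option autoImplicit false

namespace Pool.Agent.PLG.H81

open Finset

theorem indep_mul {e : ℕ} {w : Fin e → ℝ} {c : Fin e → ℕ} (hw : LinearIndependent ℚ w)
    (hc : ∀ i, 1 ≤ c i) : LinearIndependent ℚ (fun i => (c i : ℝ) * w i) := by
  rw [Fintype.linearIndependent_iff] at hw ⊢
  intro g hg i
  have h1 := hw (fun i => g i * c i) (by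
    rw [← hg]
    refine Finset.sum_congr rfl fun i _ => ?_
    rw [Rat.smul_def, Rat.smul_def]
    push_cast
    ring) i
  have h2 : (c i : ℚ) ≠ 0 := by
    have := hc i
    exact_mod_cast (by omega : c i ≠ 0)
  exact (mul_eq_zero.mp h1).resolve_right h2

/-- **TPL** -/
theorem tpl (hrts : RtsStmt) (hfnl : FnlStmt) : TplStmt := by
  classical
  intro E _ _ f G e A X K j T hd hfd hrk he hK hj hT hX
  obtain ⟨S, hSc, hS⟩ := hrts e A
  rcases X.eq_empty_or_nonempty with hX0 | hXne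
  · left
    rw [hX0, Finset.card_empty, Nat.cast_zero, hT]
    positivity
  -- the choice
  have hch : ∀ x : ℂ, ∃ p : (Fin e → ℕ) × (Fin e → ℝ), x ∈ X → (LinearIndependent ℚ p.2 ∧
      ∀ i, 1 ≤ p.1 i ∧ (p.1 i : ℝ) ≤ K ∧ Alg e A (p.2 i) ∧
        (((p.1 i : ℝ) * p.2 i : ℝ) : ℂ) * x ∈ G ∧
        ‖f ((((p.1 i : ℝ) * p.2 i : ℝ) : ℂ) * x)‖ ≤ K * ‖f x‖) := by
    intro x
    by_cases hx : x ∈ X
    · obtain ⟨w, c, h1, h2⟩ := (hX x hx).2.2
      exact ⟨(c, w), fun _ => ⟨h1, h2⟩⟩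
    · exact ⟨(fun _ => 0, fun _ => 0), fun h => absurd h hx⟩
  choose φ hφ using hch
  obtain ⟨B, hB⟩ : ∃ B : Finset ((Fin e → ℕ) × (Fin e → ℝ)),
      B = (Fintype.piFinset fun _ : Fin e => range (⌊K⌋₊ + 1)) ×ˢ
        (Fintype.piFinset fun _ : Fin e => S) := ⟨_, rfl⟩
  have hφB : ∀ x ∈ X, φ x ∈ B := by
    intro x hx
    rw [hB]
    refine Finset.mem_product.mpr ⟨Fintype.mem_piFinset.mpr fun i => ?_,
      Fintype.mem_piFinset.mpr fun i => hS _ ((hφ x hx).2 i).2.2.1⟩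
    rw [Finset.mem_range, Nat.lt_succ_iff]
    exact Nat.le_floor ((hφ x hx).2 i).2.1
  have hBne : B.Nonempty := by
    obtain ⟨x, hx⟩ := hXne
    exact ⟨φ x, hφB x hx⟩
  have hB0 : (0 : ℝ) < B.card := by exact_mod_cast Finset.card_pos.mpr hBne
  have hBT : (B.card : ℝ) ≤ T := by
    rw [hB, Finset.card_product, Fintype.card_piFinset_const, Fintype.card_piFinset_const,
      Finset.card_range, ← mul_pow, hT]
    push_cast
    refine pow_le_pow_left₀ (by positivity) ?_ e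
    refine mul_le_mul ?_ ?_ (by positivity) (by linarith)
    · have := Nat.floor_le (by linarith : (0 : ℝ) ≤ K)
      linarith
    · exact_mod_cast hSc
  have hT0 : 0 < T := hB0.trans_le hBT
  obtain ⟨p, -, hp⟩ := Finset.exists_le_card_fiber_of_nsmul_le_card_of_maps_to
    (b := (X.card : ℝ) / B.card) hφB hBne (by
      rw [nsmul_eq_mul, mul_div_cancel₀ _ hB0.ne'])
  obtain ⟨X', hX'⟩ : ∃ X' : Finset ℂ, X' = X.filter fun x => φ x = p := ⟨_, rfl⟩
  rw [← hX'] at hp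
  have hXX' : (X.card : ℝ) ≤ T * X'.card := by
    rw [div_le_iff₀ hB0] at hp
    calc (X.card : ℝ) ≤ X'.card * B.card := hp
      _ ≤ X'.card * T := mul_le_mul_of_nonneg_left hBT (Nat.cast_nonneg _)
      _ = T * X'.card := mul_comm _ _
  rcases le_or_gt (X'.card : ℝ) (2 ^ (2 * e)) with hsm | hbig
  · left
    exact hXX'.trans (mul_le_mul_of_nonneg_left hsm hT0.le)
  · right
    have hX'0 : 0 < X'.card := by
      have : (0 : ℝ) < X'.card := lt_trans (by positivity) hbig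
      exact_mod_cast this
    have hmem : ∀ x ∈ X', x ∈ X ∧ φ x = p := by
      intro x hx
      rw [hX'] at hx
      exact Finset.mem_filter.mp hx
    obtain ⟨x₀, hx₀⟩ := Finset.card_pos.mp hX'0
    have hp1 := hφ x₀ (hmem x₀ hx₀).1
    rw [(hmem x₀ hx₀).2] at hp1
    obtain ⟨z, hz, hzc⟩ := hfnl E f G e (fun i => (p.1 i : ℝ) * p.2 i) X' ((3 * K) ^ e / j) hd hfd
      hrk he (indep_mul hp1.1 fun i => (hp1.2 i).1) (by positivity) (by
        intro x hx
        obtain ⟨hxX, hxp⟩ := hmem x hx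
        obtain ⟨h1, h2, -⟩ := hX x hxX
        have h3 := (hφ x hxX).2
        rw [hxp] at h3
        refine ⟨h1, fun i => ⟨(h3 i).2.2.2.1, ?_⟩⟩
        rw [le_div_iff₀ hj]
        calc ‖f ((((p.1 i : ℝ) * p.2 i : ℝ) : ℂ) * x)‖ ^ e * j ≤ (K * ‖f x‖) ^ e * j :=
              mul_le_mul_of_nonneg_right
                (pow_le_pow_left₀ (norm_nonneg _) (h3 i).2.2.2.2 e) hj.le
          _ = K ^ e * (‖f x‖ ^ e * j) := by rw [mul_pow]; ring
          _ ≤ K ^ e * 3 ^ e := mul_le_mul_of_nonneg_left h2 (by positivity)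
          _ = (3 * K) ^ e := by rw [mul_pow]; ring) hbig
    refine ⟨z, hz, ?_⟩
    have hj2 : ((3 * K) ^ e / j) ^ 2 * j ^ 2 = (3 * K) ^ (2 * e) := by
      rw [div_pow, div_mul_cancel₀ _ (by positivity), ← pow_mul, mul_comm e 2]
    calc (X.card : ℝ) * j ^ 2 ≤ (T * X'.card) * j ^ 2 :=
          mul_le_mul_of_nonneg_right hXX' (by positivity)
      _ = T * ((X'.card : ℝ) * j ^ 2) := by ring
      _ ≤ T * (((4 * e) ^ (2 * e) * ((3 * K) ^ e / j) ^ 2 * (cnt f (lz G z) 1 : ℝ) ^ 2) *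
          j ^ 2) :=
          mul_le_mul_of_nonneg_left (mul_le_mul_of_nonneg_right hzc (by positivity)) hT0.le
      _ = T * ((4 * e) ^ (2 * e) * (((3 * K) ^ e / j) ^ 2 * j ^ 2)) *
          (cnt f (lz G z) 1 : ℝ) ^ 2 := by ring
      _ = T * (12 * e * K) ^ (2 * e) * (cnt f (lz G z) 1 : ℝ) ^ 2 := by
          rw [hj2, ← mul_pow]
          congr 3
          ring

end Pool.Agent.PLG.H81
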